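import Pool.Agent.H.MP_085bfa.B

set_option autoImplicit false

open Set Topology TopologicalSpace

namespace Pool.Agent.Results.MP_085bfa_gt.Yes

/-- covering dimension at most `n` -/
def DimLE (Z : Type) [TopologicalSpace Z] (n : ℕ) : Prop :=
  ∀ (ι : Type) [Finite ι] (U : ι → Set Z), (∀ i, IsOpen (U i)) → (⋃ i, U i) = Set.univ →
    ∃ (κ : Type) (_ : Finite κ) (V : κ → Set Z),
      (∀ k, IsOpen (V k)) ∧ (⋃ k, V k) = Set.univ ∧ (∀ k, ∃ i, V k ⊆ U i) ∧
      ∀ x, Nat.card {k // x ∈ V k} ≤ n + 1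

/-- the topology is the intersection of `k` separable metrizable zero-dimensional topologies -/
def SnLE (X : Type) [TopologicalSpace X] (k : ℕ) : Prop :=
  ∃ t : Fin k → TopologicalSpace X,
    (∀ i, @SeparableSpace X (t i) ∧ @MetrizableSpace X (t i) ∧
      @smallInductiveDimension X (t i) = 0) ∧
    ∀ U : Set X, IsOpen U ↔ ∀ i, IsOpen[t i] U

theorem result :
    (∀ (X : Type) [TopologicalSpace X] [SeparableSpace X] [MetrizableSpace X] [Nonempty X]
      (n : ℕ), DimLE X n → SnLE X (n + 1)) ∧ SnLE (EuclideanSpace ℝ (Fin 2)) 3 := by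
  refine ⟨fun X _ _ _ _ n h => ?_, ?_⟩
  · have : SecondCountableTopology X := by
      let := metrizableSpaceMetric X
      exact UniformSpace.secondCountable_of_separable X
    obtain ⟨Z, z1, z2⟩ := H.MP_085bfa.decomp_dim h
    exact H.MP_085bfa.core Z z1 z2
  · obtain ⟨Z, z1, z2⟩ := H.MP_085bfa.plane
    exact H.MP_085bfa.core Z z1 z2

end Pool.Agent.Results.MP_085bfa_gt.Yes
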